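import Pool.Agent.H56.Dom.Gen

/-! # The domination order of extremal functions fails below every invariant subspace of index at least two -/

set_option autoImplicit false

namespace Pool.Agent.Results.MP_d05361_an.IndexCriterion

open MeasureTheory Filter Topology
open scoped ENNReal

/-- Normalized area measure on the open unit disc. -/
noncomputable def dA : Measure ℂ :=
  (ENNReal.ofReal Real.pi)⁻¹ • (volume : Measure ℂ).restrict (Metric.ball (0 : ℂ) 1)

/-- The squared norm `‖f‖² = ∫ |f|² dA`, a number in `[0, ∞]`. -/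
noncomputable def normSq (f : ℂ → ℂ) : ℝ≥0∞ := ∫⁻ z, ‖f z‖ₑ ^ 2 ∂dA

/-- `f` belongs to the Bergman space: it is holomorphic on the disc and `‖f‖ < ∞`. (Functions on the disc
are represented by functions `ℂ → ℂ`, of which only the values on the open unit disc matter.) -/
def MemBergman (f : ℂ → ℂ) : Prop :=
  DifferentiableOn ℂ f (Metric.ball (0 : ℂ) 1) ∧ normSq f < ⊤

/-- `I` is a closed subspace of the Bergman space with `z I ⊆ I`. (The field `ext` says that
membership only depends on the values on the disc, `closed` that `I` is closed in norm.) -/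
structure IsInvSubspace (I : Set (ℂ → ℂ)) : Prop where
  bergman : ∀ f ∈ I, MemBergman f
  ext : ∀ f ∈ I, ∀ g : ℂ → ℂ, (∀ z ∈ Metric.ball (0 : ℂ) 1, g z = f z) → g ∈ I
  zero : (fun _ => 0) ∈ I
  add : ∀ f ∈ I, ∀ g ∈ I, (fun z => f z + g z) ∈ I
  smul : ∀ c : ℂ, ∀ f ∈ I, (fun z => c * f z) ∈ I
  closed : ∀ (F : ℕ → ℂ → ℂ) (f : ℂ → ℂ), (∀ n, F n ∈ I) → MemBergman f →
    Tendsto (fun n => normSq (fun z => F n z - f z)) atTop (𝓝 0) → f ∈ I
  z_mul : ∀ f ∈ I, (fun z => z * f z) ∈ I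

/-- `H` is the extremal function of `I`: the unique (as a function on the disc) maximizer of
`Re f(0)` over all `f ∈ I` with `‖f‖ ≤ 1`. -/
def IsExtremal (I : Set (ℂ → ℂ)) (H : ℂ → ℂ) : Prop :=
  H ∈ I ∧ normSq H ≤ 1 ∧ (∀ f ∈ I, normSq f ≤ 1 → (f 0).re ≤ (H 0).re) ∧
    ∀ f ∈ I, normSq f ≤ 1 → (H 0).re ≤ (f 0).re → ∀ z ∈ Metric.ball (0 : ℂ) 1, f z = H z

/-- `F` dominates `G`: `‖G h‖ ≤ ‖F h‖` for all `h` in the Bergman space. -/
def Dominates (F G : ℂ → ℂ) : Prop :=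
  ∀ h : ℂ → ℂ, MemBergman h → normSq (fun z => G z * h z) ≤ normSq (fun z => F z * h z)

/-- `J` has index at least two: `J / z J` has dimension at least two, i.e. `J` has two elements `f`, `g`
such that no nontrivial linear combination of them belongs to `z J`. -/
def IndexAtLeastTwo (J : Set (ℂ → ℂ)) : Prop :=
  ∃ f ∈ J, ∃ g ∈ J, ∀ a b : ℂ, ∀ k ∈ J,
    (∀ z ∈ Metric.ball (0 : ℂ) 1, a * f z + b * g z = z * k z) → a = 0 ∧ b = 0

/-- `z J ⊆ I ⊆ J`, and `I` contains a function which does not vanish at `0`. -/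
def Between (I J : Set (ℂ → ℂ)) : Prop :=
  (∀ f ∈ J, (fun z => z * f z) ∈ I) ∧ I ⊆ J ∧ ∃ f ∈ I, f 0 ≠ 0

/-- `I` has codimension one in `J`: for some `g ∈ J`, `g ∉ I`, every element of `J` is the sum of a
multiple of `g` and an element of `I`. -/
def CodimOne (I J : Set (ℂ → ℂ)) : Prop :=
  ∃ g ∈ J, g ∉ I ∧ ∀ f ∈ J, ∃ a : ℂ, (fun z => f z - a * g z) ∈ I

open Pool.Agent.H563Dom in
/-- translation to the library's definitions -/
lemma toLib {I : Set (ℂ → ℂ)} (h : IsInvSubspace I) : Pool.Agent.H563Dom.IsInvSubspace I :=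
  ⟨h.bergman, h.ext, h.zero, h.add, h.smul, h.closed, h.z_mul⟩

lemma ofLib {I : Set (ℂ → ℂ)} (h : Pool.Agent.H563Dom.IsInvSubspace I) : IsInvSubspace I :=
  ⟨h.bergman, h.ext, h.zero, h.add, h.smul, h.closed, h.z_mul⟩

lemma normSq_congr {f g : ℂ → ℂ} (h : ∀ z ∈ Metric.ball (0 : ℂ) 1, f z = g z) : normSq f = normSq g := by
  unfold normSq dA
  rw [lintegral_smul_measure, lintegral_smul_measure]
  congr 1
  apply lintegral_congr_ae
  filter_upwards [ae_restrict_mem Metric.isOpen_ball.measurableSet] with z hz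
  rw [h z hz]

/-- two extremal functions agree on the disc -/
lemma extremal_unique {I : Set (ℂ → ℂ)} {H H' : ℂ → ℂ} (h : IsExtremal I H) (h' : IsExtremal I H') :
    ∀ z ∈ Metric.ball (0 : ℂ) 1, H z = H' z := by
  exact h'.2.2.2 H h.1 h.2.1 (h.2.2.1 H' h'.1 h'.2.1)

/-- every invariant subspace with a function which does not vanish at `0` has an extremal function -/
lemma exists_extremal {J : Set (ℂ → ℂ)} (hJ : IsInvSubspace J) (h0 : ∃ f ∈ J, f 0 ≠ 0) :
    ∃ H, IsExtremal J H := by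
  obtain ⟨f, hf, hf0⟩ := h0
  have hJ' := toLib hJ
  obtain ⟨V, hV⟩ : ∃ V, V = Pool.Agent.H56.Dom.VV J hJ' := ⟨_, rfl⟩
  have hVc : IsClosed (V : Set Pool.Agent.H563Dom.L2) := by
    rw [hV]
    exact Pool.Agent.H56.Dom.closed_VV hJ'
  have hFn : Pool.Agent.H563Dom.Fn V = J := by
    rw [hV]
    exact Pool.Agent.H56.Dom.Fn_VV hJ'
  have : CompleteSpace V := hVc.completeSpace_coe
  obtain ⟨α, hα, hαf⟩ : ∃ α ∈ V, Pool.Agent.H563Dom.IsPS (Pool.Agent.H563Dom.coef α) f := by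
    rw [← hFn] at hf
    exact hf
  have hα0 : α 0 ≠ 0 := by
    rw [← Pool.Agent.H563Dom.coef_zero, ← hαf.at_zero]
    exact hf0
  obtain ⟨e, he⟩ : ∃ e : Pool.Agent.H563Dom.L2, e = lp.single 2 0 (1 : ℂ) := ⟨_, rfl⟩
  have hee : ∀ α : Pool.Agent.H563Dom.L2, inner ℂ e α = α 0 := by
    intro α
    rw [he, lp.inner_single_left]
    simp
  obtain ⟨P, hP⟩ : ∃ P : Pool.Agent.H563Dom.L2, P = V.starProjection e := ⟨_, rfl⟩
  have hPJ : P ∈ V := by rw [hP]; exact V.starProjection_apply_mem e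
  have hPe : ∀ α ∈ V, inner ℂ P α = inner ℂ e α := by
    intro α hα
    have h1 := V.starProjection_inner_eq_zero e α hα
    rw [inner_sub_left, sub_eq_zero, ← hP] at h1
    exact h1.symm
  have hP0 : P ≠ 0 := by
    intro h
    apply hα0
    rw [← hee, ← hPe α hα, h, inner_zero_left]
  have hp : 0 < ‖P‖ := norm_pos_iff.2 hP0
  have hpc : (‖P‖ : ℂ) ≠ 0 := by exact_mod_cast hp.ne'
  refine ⟨Pool.Agent.H563Dom.fn (((‖P‖ : ℂ))⁻¹ • P), ?_⟩
  have h1 := Pool.Agent.H563Dom.isExtremal_Fn V (G := ((‖P‖ : ℂ))⁻¹ • P) (V.smul_mem _ hPJ)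
    (by
      rw [norm_smul, norm_inv, Complex.norm_real, norm_norm]
      exact inv_mul_cancel₀ hp.ne') (ρ := ‖P‖) hp
    (by
      intro β hβ
      rw [inner_smul_left, hPe β hβ, map_inv₀, Complex.conj_ofReal, ← mul_assoc,
        mul_inv_cancel₀ hpc, one_mul, hee])
  rw [hFn] at h1
  exact h1

/-- the main step -/
lemma main {J : Set (ℂ → ℂ)} (hJ : IsInvSubspace J) (h0 : ∃ f ∈ J, f 0 ≠ 0) (h2 : IndexAtLeastTwo J)
    {HJ : ℂ → ℂ} (hHJ : IsExtremal J HJ) (ε : ℝ) (hε : 0 < ε) :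
    ∃ (I : Set (ℂ → ℂ)) (HI : ℂ → ℂ), IsInvSubspace I ∧ Between I J ∧ CodimOne I J ∧ IsExtremal I HI ∧
      normSq (fun z => HI z - HJ z) < ENNReal.ofReal ε ∧
      ∃ h : Polynomial ℂ, MemBergman (fun z => h.eval z) ∧
        normSq (fun z => HI z * h.eval z) < normSq (fun z => HJ z * h.eval z) := by
  obtain ⟨f, hf, g, hg, hind⟩ := h2
  obtain ⟨x, hx, hx0⟩ := h0
  have hJ' := toLib hJ
  obtain ⟨V, hV⟩ : ∃ V, V = Pool.Agent.H56.Dom.VV J hJ' := ⟨_, rfl⟩
  have hVc : IsClosed (V : Set Pool.Agent.H563Dom.L2) := by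
    rw [hV]
    exact Pool.Agent.H56.Dom.closed_VV hJ'
  have hVT : ∀ α ∈ V, Pool.Agent.H563Dom.T α ∈ V := by
    rw [hV]
    exact Pool.Agent.H56.Dom.T_VV hJ'
  have hFn : Pool.Agent.H563Dom.Fn V = J := by
    rw [hV]
    exact Pool.Agent.H56.Dom.Fn_VV hJ'
  obtain ⟨α, hα, hαf⟩ : f ∈ Pool.Agent.H563Dom.Fn V := by rw [hFn]; exact hf
  obtain ⟨β, hβ, hβg⟩ : g ∈ Pool.Agent.H563Dom.Fn V := by rw [hFn]; exact hg
  obtain ⟨ξ, hξ, hξx⟩ : x ∈ Pool.Agent.H563Dom.Fn V := by rw [hFn]; exact hx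
  obtain ⟨H, hH, K, hK, h1, h2, h3, ⟨p, hp, h4⟩, h5, h6⟩ := Pool.Agent.H56.Dom.exists_vectors V hVc hVT
    α β hα hβ (by
      intro a b κ hκ he
      have hk : Pool.Agent.H563Dom.fn κ ∈ J := by
        rw [← hFn]
        exact ⟨κ, hκ, Pool.Agent.H563Dom.isPS_fn κ⟩
      apply hind a b _ hk
      intro z hz
      have e1 : Pool.Agent.H563Dom.IsPS (Pool.Agent.H563Dom.coef (a • α + b • β))
          (fun z => a * f z + b * g z) := by
        rw [Pool.Agent.H563Dom.coef_add, Pool.Agent.H563Dom.coef_smul, Pool.Agent.H563Dom.coef_smul]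
        exact (hαf.smul a).add (hβg.smul b)
      rw [he] at e1
      exact e1.eqOn (Pool.Agent.H563Dom.isPS_T (Pool.Agent.H563Dom.isPS_fn κ)) z hz)
    ξ hξ (by
      rw [← Pool.Agent.H563Dom.coef_zero, ← hξx.at_zero]
      exact hx0)
  have hHe : IsExtremal J (Pool.Agent.H563Dom.fn H) := by
    have := Pool.Agent.H563Dom.isExtremal_Fn V hH h1 hp h4
    rw [hFn] at this
    exact this
  have heq := extremal_unique hHe hHJ
  obtain ⟨I, hI1, hI2, hI3, hI4, hI5, HI, hI6, hI7, h, hI8, hI9⟩ :=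
    Pool.Agent.H56.Dom.fails V hVc hVT H hH K hK h1 h2 h3 p hp h4 h5 h6 ε hε
  rw [hFn] at hI2 hI3 hI4
  refine ⟨I, HI, ofLib hI1, ⟨hI3, hI2, hI5⟩, hI4, hI6, ?_, h, hI8, ?_⟩
  · rw [normSq_congr (g := fun z => HI z - Pool.Agent.H563Dom.fn H z)
      (fun z hz => by rw [heq z hz])]
    exact hI7
  · rw [normSq_congr (f := fun z => HJ z * h.eval z) (g := fun z => Pool.Agent.H563Dom.fn H z * h.eval z)
      (fun z hz => by rw [heq z hz])]
    exact hI9

/-- (1) There are `z`-invariant subspaces `J` of the Bergman space of index at least two which contain a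
function not vanishing at `0`. (2) Let `J` be any `z`-invariant subspace which contains a function not
vanishing at `0`. Then `J` has an extremal function `H_J`, and `J` has index at least two if and only if
there is an invariant subspace `I` with `z J ⊆ I ⊆ J`, containing a function not vanishing at `0`, whose
extremal function `H_I` does not dominate `H_J`. In this case one may choose, for every `ε > 0`, such an
`I` of codimension one in `J` with `‖H_I - H_J‖² < ε` and `‖H_I h‖ < ‖H_J h‖` for some polynomial `h`. -/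
theorem result :
    (∃ J : Set (ℂ → ℂ), IsInvSubspace J ∧ (∃ f ∈ J, f 0 ≠ 0) ∧ IndexAtLeastTwo J) ∧
    ∀ J : Set (ℂ → ℂ), IsInvSubspace J → (∃ f ∈ J, f 0 ≠ 0) →
      (∃ HJ : ℂ → ℂ, IsExtremal J HJ) ∧ ∀ HJ : ℂ → ℂ, IsExtremal J HJ →
        (IndexAtLeastTwo J ↔ ∃ (I : Set (ℂ → ℂ)) (HI : ℂ → ℂ), IsInvSubspace I ∧ Between I J ∧
          IsExtremal I HI ∧ ¬ Dominates HI HJ) ∧
        (IndexAtLeastTwo J → ∀ ε : ℝ, 0 < ε → ∃ (I : Set (ℂ → ℂ)) (HI : ℂ → ℂ), IsInvSubspace I ∧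
          Between I J ∧ CodimOne I J ∧ IsExtremal I HI ∧
          normSq (fun z => HI z - HJ z) < ENNReal.ofReal ε ∧
          ∃ h : Polynomial ℂ, MemBergman (fun z => h.eval z) ∧
            normSq (fun z => HI z * h.eval z) < normSq (fun z => HJ z * h.eval z)) := by
  refine ⟨?_, ?_⟩
  · obtain ⟨V, hVc, hVT, H, hH, K, hK, h1, h2, h3, ⟨p, hp, h4⟩, h5, h6⟩ :=
      Pool.Agent.H563Dom.exists_model_space
    have hHH : inner ℂ H H = (1 : ℂ) := by rw [inner_self_eq_norm_sq_to_K, h1]; simp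
    have hKK : inner ℂ K K = (1 : ℂ) := by rw [inner_self_eq_norm_sq_to_K, h2]; simp
    have hKH : inner ℂ K H = (0 : ℂ) := by rw [← inner_conj_symm, h3, map_zero]
    refine ⟨Pool.Agent.H563Dom.Fn V, ofLib (Pool.Agent.H563Dom.isInv_Fn V hVc hVT), ?_, ?_⟩
    · refine ⟨Pool.Agent.H563Dom.fn H, ⟨H, hH, Pool.Agent.H563Dom.isPS_fn H⟩, ?_⟩
      rw [(Pool.Agent.H563Dom.isPS_fn H).at_zero, Pool.Agent.H563Dom.coef_zero, h4 H hH, hHH, mul_one]
      exact_mod_cast hp.ne'
    · refine ⟨Pool.Agent.H563Dom.fn H, ⟨H, hH, Pool.Agent.H563Dom.isPS_fn H⟩,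
        Pool.Agent.H563Dom.fn K, ⟨K, hK, Pool.Agent.H563Dom.isPS_fn K⟩, ?_⟩
      rintro a b k ⟨κ, hκ, hkκ⟩ he
      have e1 : Pool.Agent.H563Dom.IsPS (Pool.Agent.H563Dom.coef (a • H + b • K))
          (fun z => a * Pool.Agent.H563Dom.fn H z + b * Pool.Agent.H563Dom.fn K z) := by
        rw [Pool.Agent.H563Dom.coef_add, Pool.Agent.H563Dom.coef_smul, Pool.Agent.H563Dom.coef_smul]
        exact ((Pool.Agent.H563Dom.isPS_fn H).smul a).add ((Pool.Agent.H563Dom.isPS_fn K).smul b)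
      have e2 : Pool.Agent.H563Dom.IsPS (Pool.Agent.H563Dom.coef (Pool.Agent.H563Dom.T κ))
          (fun z => a * Pool.Agent.H563Dom.fn H z + b * Pool.Agent.H563Dom.fn K z) :=
        (Pool.Agent.H563Dom.isPS_T hkκ).congr (fun z hz => he z hz)
      have e3 : a • H + b • K = Pool.Agent.H563Dom.T κ := Pool.Agent.H563Dom.coef_inj (e1.unique e2)
      constructor
      · have e4 := h5 κ hκ
        rw [← e3, inner_add_right, inner_smul_right, inner_smul_right, hHH, h3] at e4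
        simpa using e4
      · have e4 := h6 κ hκ
        rw [← e3, inner_add_right, inner_smul_right, inner_smul_right, hKH, hKK] at e4
        simpa using e4
  · intro J hJ h0
    refine ⟨exists_extremal hJ h0, ?_⟩
    intro HJ hHJ
    refine ⟨⟨?_, ?_⟩, fun h2 ε hε => main hJ h0 h2 hHJ ε hε⟩
    · intro h2
      obtain ⟨I, HI, h3, h4, _, h5, _, h, h6, h7⟩ := main hJ h0 h2 hHJ 1 one_pos
      exact ⟨I, HI, h3, h4, h5, fun hd => absurd (hd _ h6) (not_le.2 h7)⟩
    · rintro ⟨I, HI, hI, ⟨hzJ, hIJ, f, hf, hf0⟩, hHI, hnd⟩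
      obtain ⟨g, hg, hgI⟩ : ∃ g ∈ J, g ∉ I := by
        by_contra hcon
        push Not at hcon
        apply hnd
        have hIJ' : I = J := Set.Subset.antisymm hIJ hcon
        rw [hIJ'] at hHI
        have heq := extremal_unique hHI hHJ
        intro h _
        exact (normSq_congr (fun z hz => by rw [heq z hz])).le
      refine ⟨f, hIJ hf, g, hg, ?_⟩
      intro a b k hk he
      have hb : b = 0 := by
        by_contra hb
        apply hgI
        have h1 := hI.add _ (hI.smul b⁻¹ _ (hzJ k hk)) _ (hI.smul (-(b⁻¹ * a)) _ hf)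
        refine hI.ext _ h1 g ?_
        intro z hz
        have h2 := he z hz
        have h3 : b * g z = z * k z - a * f z := by linear_combination h2
        calc g z = b⁻¹ * (b * g z) := by rw [← mul_assoc, inv_mul_cancel₀ hb, one_mul]
          _ = b⁻¹ * (z * k z) + -(b⁻¹ * a) * f z := by rw [h3]; ring
      refine ⟨?_, hb⟩
      have h1 := he 0 (by simp)
      rw [hb, zero_mul, add_zero, zero_mul] at h1
      exact (mul_eq_zero.1 h1).resolve_right hf0

end Pool.Agent.Results.MP_d05361_an.IndexCriterion
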